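import Pool.Agent.W710.DP.Stm2

/-!
Project DP, part CORE: the change of variables to generating functions.
-/

set_option autoImplicit false

namespace Pool.Agent.W539.DP

open Pool.Agent.W710.DP

theorem lip_of_small {δ : ℝ} {v : ℝ × ℝ → ℝ} (hv : SmallC1 δ v) (p q : ℝ × ℝ) :
    |v p - v q| ≤ δ * ‖p - q‖ := by
  have hd : Differentiable ℝ v := hv.1.differentiable (by norm_num)
  have := Convex.norm_image_sub_le_of_norm_fderiv_le (𝕜 := ℝ) (f := v) (s := Set.univ) (C := δ)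
    (fun x _ => hd x) (fun x _ => (hv.2 x).2) convex_univ (Set.mem_univ q) (Set.mem_univ p)
  simpa [Real.norm_eq_abs] using this

theorem clm_split (W : ℝ × ℝ →L[ℝ] ℝ) (a b : ℝ) : W (a, b) = a * W (1, 0) + b * W (0, 1) := by
  have h : ((a, b) : ℝ × ℝ) = a • ((1, 0) : ℝ × ℝ) + b • ((0, 1) : ℝ × ℝ) := by
    ext <;> simp
  rw [h, map_add, map_smul, map_smul]
  simp

theorem t_core (h : S_bij) : S_core := by
  intro u v δ hδ hu hv
  have hδ0 : 0 ≤ δ := (abs_nonneg _).trans (hv.2 (0, 0)).1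
  obtain ⟨F, hF, hFs⟩ := h (fun p => (0, v p)) (contDiff_const.prodMk hv.1) (by
    intro p q
    have h1 := lip_of_small hv p q
    have h2 : ‖((0 : ℝ), v p) - ((0 : ℝ), v q)‖ = |v p - v q| := by
      rw [Prod.mk_sub_mk, Prod.norm_mk]
      simp
    rw [h2]
    refine h1.trans (mul_le_mul_of_nonneg_right (by linarith) (norm_nonneg _)))
  have hF1 : ∀ x s, F (x, s) = (x, s + v (x, s)) := by
    intro x s
    rw [hF]
    simp
  have hG1 : ∀ p, (F.symm p).1 = p.1 := by
    intro p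
    have h1 := F.apply_symm_apply p
    rw [hF] at h1
    have h2 := congrArg Prod.fst h1
    simpa using h2
  set σ : ℝ × ℝ → ℝ := fun p => (F.symm p).2 with hσ
  have hG : ∀ p, F.symm p = (p.1, σ p) := fun p => Prod.ext (hG1 p) rfl
  have hσs : Sm σ := contDiff_snd.comp hFs
  have hσ2 : ∀ p, σ p + v (p.1, σ p) = p.2 := by
    intro p
    have h1 := F.apply_symm_apply p
    rw [hG, hF1] at h1
    exact congrArg Prod.snd h1
  have hσd : Differentiable ℝ σ := hσs.differentiable (by norm_num)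
  have hvd : Differentiable ℝ v := hv.1.differentiable (by norm_num)
  have hud : Differentiable ℝ u := hu.1.differentiable (by norm_num)
  have hGd : ∀ p, HasFDerivAt (fun p : ℝ × ℝ => (p.1, σ p))
      ((ContinuousLinearMap.fst ℝ ℝ ℝ).prod (fderiv ℝ σ p)) p := fun p =>
    hasFDerivAt_fst.prodMk (hσd p).hasFDerivAt
  have hvG : ∀ p, HasFDerivAt (fun p : ℝ × ℝ => v (p.1, σ p))
      ((fderiv ℝ v (p.1, σ p)).comp ((ContinuousLinearMap.fst ℝ ℝ ℝ).prod (fderiv ℝ σ p))) p :=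
    fun p => HasFDerivAt.comp p (hvd (p.1, σ p)).hasFDerivAt (hGd p)
  have huG : ∀ p, HasFDerivAt (fun p : ℝ × ℝ => u (p.1, σ p))
      ((fderiv ℝ u (p.1, σ p)).comp ((ContinuousLinearMap.fst ℝ ℝ ℝ).prod (fderiv ℝ σ p))) p :=
    fun p => HasFDerivAt.comp p (hud (p.1, σ p)).hasFDerivAt (hGd p)
  have hLeq : ∀ p w, fderiv ℝ σ p w = w.2 - fderiv ℝ v (p.1, σ p) (w.1, fderiv ℝ σ p w) := by
    intro p w
    have h1 : HasFDerivAt (fun p : ℝ × ℝ => σ p + v (p.1, σ p))
        (ContinuousLinearMap.snd ℝ ℝ ℝ) p := by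
      have h2 : (fun p : ℝ × ℝ => σ p + v (p.1, σ p)) = fun p => p.2 := funext hσ2
      rw [h2]
      exact hasFDerivAt_snd
    have h3 := (hσd p).hasFDerivAt.add (hvG p)
    have h4 := h3.unique h1
    have h5 := congrArg (fun (L : ℝ × ℝ →L[ℝ] ℝ) => L w) h4
    simp only [add_apply, ContinuousLinearMap.comp_apply,
      ContinuousLinearMap.prod_apply, ContinuousLinearMap.coe_fst',
      ContinuousLinearMap.coe_snd'] at h5
    linarith
  have hbd : ∀ (W : ℝ × ℝ →L[ℝ] ℝ), ‖W‖ ≤ δ → ∀ a b : ℝ, |W (a, b)| ≤ δ * max |a| |b| := by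
    intro W hW a b
    have h1 := W.le_opNorm (a, b)
    rw [Prod.norm_mk, Real.norm_eq_abs, Real.norm_eq_abs, Real.norm_eq_abs] at h1
    exact h1.trans (mul_le_mul_of_nonneg_right hW (le_max_of_le_left (abs_nonneg _)))
  have hw1 : ∀ w : ℝ × ℝ, |w.1| ≤ ‖w‖ := fun w => norm_fst_le w
  have hw2 : ∀ w : ℝ × ℝ, |w.2| ≤ ‖w‖ := fun w => norm_snd_le w
  have hLn : ∀ p w, |fderiv ℝ σ p w| ≤ 2 * ‖w‖ := by
    intro p w
    have h1 := hLeq p w
    have h2 := hbd _ (hv.2 (p.1, σ p)).2 w.1 (fderiv ℝ σ p w)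
    set y := fderiv ℝ σ p w with hy
    set z := fderiv ℝ v (p.1, σ p) (w.1, y) with hz
    have h3 : max |w.1| |y| ≤ ‖w‖ + |y| :=
      max_le (by linarith [hw1 w, abs_nonneg y]) (by linarith [norm_nonneg w])
    have h4 : |z| ≤ 1 / 4 * (‖w‖ + |y|) := h2.trans
      (mul_le_mul hδ h3 (le_max_of_le_left (abs_nonneg _)) (by norm_num))
    have h5 : |y| ≤ |w.2| + |z| := by
      rw [h1]
      exact abs_sub _ _
    have := hw2 w
    linarith [norm_nonneg w]
  have hmax : ∀ p w, max |w.1| |fderiv ℝ σ p w| ≤ 2 * ‖w‖ := fun p w =>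
    max_le (by linarith [hw1 w, norm_nonneg w]) (hLn p w)
  refine ⟨σ, hσs, ?_, ?_, ⟨?_, ?_⟩, ⟨?_, ?_⟩, ?_⟩
  · intro x s
    have h1 : F.symm (x, s + v (x, s)) = (x, s) := by
      rw [← hF1, Equiv.symm_apply_apply]
    rw [hσ]
    simp only [h1]
  · intro x S
    exact hσ2 (x, S)
  · exact hσs.sub contDiff_snd
  · intro p
    constructor
    · have h1 : σ p - p.2 = - v (p.1, σ p) := by
        have := hσ2 p
        linarith
      change |σ p - p.2| ≤ 4 * δ
      rw [h1, abs_neg]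
      exact (hv.2 _).1.trans (by linarith)
    · have h1 : fderiv ℝ (fun p : ℝ × ℝ => σ p - p.2) p
          = fderiv ℝ σ p - ContinuousLinearMap.snd ℝ ℝ ℝ :=
        ((hσd p).hasFDerivAt.sub hasFDerivAt_snd).fderiv
      rw [h1]
      refine ContinuousLinearMap.opNorm_le_bound _ (by positivity) fun w => ?_
      rw [sub_apply, Real.norm_eq_abs]
      have h2 : fderiv ℝ σ p w - ContinuousLinearMap.snd ℝ ℝ ℝ w
          = - fderiv ℝ v (p.1, σ p) (w.1, fderiv ℝ σ p w) := by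
        have := hLeq p w
        simp only [ContinuousLinearMap.coe_snd']
        linarith
      rw [h2, abs_neg]
      refine (hbd _ (hv.2 (p.1, σ p)).2 _ _).trans ?_
      have h3 := mul_le_mul_of_nonneg_left (hmax p w) hδ0
      have h4 : 0 ≤ δ * ‖w‖ := mul_nonneg hδ0 (norm_nonneg _)
      linarith
  · exact hu.1.comp (contDiff_fst.prodMk hσs)
  · intro p
    constructor
    · exact (hu.2 _).1.trans (by linarith)
    · rw [(huG p).fderiv]
      refine ContinuousLinearMap.opNorm_le_bound _ (by positivity) fun w => ?_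
      rw [ContinuousLinearMap.comp_apply, ContinuousLinearMap.prod_apply, Real.norm_eq_abs]
      refine (hbd _ (hu.2 (p.1, σ p)).2 _ _).trans ?_
      have h3 := mul_le_mul_of_nonneg_left (hmax p w) hδ0
      have h4 : 0 ≤ δ * ‖w‖ := mul_nonneg hδ0 (norm_nonneg _)
      simp only [ContinuousLinearMap.coe_fst']
      linarith
  · intro x S hJ
    have h1 : ps (fun p : ℝ × ℝ => σ p - p.2) (x, S) = fderiv ℝ σ (x, S) (0, 1) - 1 := by
      have h2 : fderiv ℝ (fun p : ℝ × ℝ => σ p - p.2) (x, S)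
          = fderiv ℝ σ (x, S) - ContinuousLinearMap.snd ℝ ℝ ℝ :=
        ((hσd (x, S)).hasFDerivAt.sub hasFDerivAt_snd).fderiv
      unfold ps
      rw [h2, sub_apply, ContinuousLinearMap.coe_snd']
    have h3 : px (fun p : ℝ × ℝ => u (p.1, σ p)) (x, S)
        = fderiv ℝ u (x, σ (x, S)) (1, fderiv ℝ σ (x, S) (1, 0)) := by
      unfold px
      rw [(huG (x, S)).fderiv]
      rfl
    rw [h1, h3, clm_split (fderiv ℝ u (x, σ (x, S))) 1]
    have e1 := hLeq (x, S) (1, 0)
    have e2 := hLeq (x, S) (0, 1)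
    simp only at e1 e2
    rw [clm_split (fderiv ℝ v (x, σ (x, S)))] at e1 e2
    unfold Jac1 px ps at hJ
    set a := fderiv ℝ σ (x, S) (1, 0)
    set b := fderiv ℝ σ (x, S) (0, 1)
    set Wx := fderiv ℝ v (x, σ (x, S)) (1, 0)
    set Ws := fderiv ℝ v (x, σ (x, S)) (0, 1) with hWs
    set Ux := fderiv ℝ u (x, σ (x, S)) (1, 0)
    set Us := fderiv ℝ u (x, σ (x, S)) (0, 1)
    have hWsb : |Ws| ≤ 1 / 4 := by
      have := hbd _ (hv.2 (x, σ (x, S))).2 0 1
      simp only [abs_zero, abs_one] at this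
      rw [max_eq_right (by norm_num)] at this
      linarith
    have hpos : 0 < 1 + Ws := by
      have := (abs_le.1 hWsb).1
      linarith
    have ea : a * (1 + Ws) = -Wx := by linarith
    have eb : b * (1 + Ws) = 1 := by linarith
    refine mul_right_cancel₀ hpos.ne' ?_
    have : (1 * Ux + a * Us) * (1 + Ws) = Ux * (1 + Ws) + (a * (1 + Ws)) * Us := by ring
    rw [this, ea, sub_mul, eb]
    linarith

end Pool.Agent.W539.DP
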