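import Pool.Agent.W710.DP.Stm2

/-!
Project DP, part LETTER: letters realise small steps.
-/

set_option autoImplicit false

namespace Pool.Agent.W539.DP

open Pool.Agent.W710.DP Filter Topology

theorem ar_E (x s : ℝ) (hs : 0 ≤ s) : ar (E x s) = s := by
  unfold ar E
  have h1 : (2 * Real.pi * x * Complex.I : ℂ) = ((2 * Real.pi * x : ℝ) : ℂ) * Complex.I := by
    push_cast
    ring
  rw [norm_mul, h1, Complex.norm_exp_ofReal_mul_I, mul_one, Complex.norm_real, Real.norm_eq_abs,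
    sq_abs, Real.sq_sqrt (div_nonneg hs Real.pi_pos.le)]
  field_simp

theorem cont_of_lip {g : ℝ → ℝ → ℝ} {K : ℝ} (hK0 : 0 ≤ K)
    (hg : ∀ x s x' s', |g x s - g x' s'| ≤ K * (|x - x'| + |s - s'|)) :
    Continuous (fun p : ℝ × ℝ => g p.1 p.2) := by
  refine LipschitzWith.continuous (K := Real.toNNReal (2 * K))
    (LipschitzWith.of_dist_le_mul fun p q => ?_)
  rw [Real.dist_eq, Real.coe_toNNReal _ (by positivity)]
  refine (hg _ _ _ _).trans ?_
  have h1 : |p.1 - q.1| ≤ dist p q := by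
    rw [← Real.dist_eq]
    exact le_max_left _ _
  have h2 : |p.2 - q.2| ≤ dist p q := by
    rw [← Real.dist_eq]
    exact le_max_right _ _
  nlinarith

/-- a good letter is differentiable along curves -/
theorem G_deriv {T e : ℝ} {l : Letter} (hl : Good T e l) (x s : ℝ → ℝ) (t x₁ s₁ : ℝ)
    (hx : HasDerivAt x x₁ t) (hs : HasDerivAt s s₁ t) :
    HasDerivAt (fun t => l.G (x t) (s t))
      (l.gx (x t) (s t) * x₁ + l.gs (x t) (s t) * s₁) t := by
  obtain ⟨K, hK0, hK⟩ := hl.lip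
  have hcx := cont_of_lip hK0 fun x s x' s' => (hK x s x' s').1
  have hcs := cont_of_lip hK0 fun x s x' s' => (hK x s x' s').2
  have hc : ∀ g : ℝ × ℝ → ℝ, Continuous g →
      Continuous (fun p : ℝ × ℝ => ContinuousLinearMap.toSpanSingleton ℝ (g p)) := by
    intro g hg
    have h1 : (fun p : ℝ × ℝ => ContinuousLinearMap.toSpanSingleton ℝ (g p))
        = fun p => g p • ContinuousLinearMap.id ℝ ℝ := by
      funext p
      ext
      simp
    rw [h1]
    exact hg.smul continuous_const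
  have h := hasStrictFDerivAt_uncurry_coprod (𝕜 := ℝ) (u := (x t, s t)) (f := l.G)
    (f₁ := fun x s => ContinuousLinearMap.toSpanSingleton ℝ (l.gx x s))
    (f₂ := fun x s => ContinuousLinearMap.toSpanSingleton ℝ (l.gs x s))
    (Eventually.of_forall fun v => (hl.dx v.1 v.2).hasFDerivAt)
    (Eventually.of_forall fun v => (hl.ds v.1 v.2).hasFDerivAt)
    (hc _ hcx).continuousAt (hc _ hcs).continuousAt
  have h2 := h.hasFDerivAt.comp_hasDerivAt t (hx.prodMk hs)
  refine (h2.congr_deriv ?_)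
  simp [Function.HasUncurry.uncurry]
  ring

theorem t_letter (h1 : S_lift) (h2 : S_gen) : S_letter := by
  intro r0 hr0 ρ hρ T e he he1 he2 hT
  obtain ⟨δ', hδ', hgen⟩ := h2 (Real.pi * r0 ^ 2 / 2) (by positivity) ρ hρ T e he (by linarith)
    he2 hT
  obtain ⟨δ, hδ, hlift⟩ := h1 r0 hr0 ρ hρ δ' hδ'
  refine ⟨δ, hδ, fun φ hφ hid hcl => ?_⟩
  obtain ⟨u, v, hs, huv⟩ := hlift φ hφ hid hcl
  obtain ⟨l, hl, hlr⟩ := hgen u v hs
  refine ⟨l, hl, e, he, fun α β x s x₁ s₁ hxs => ?_⟩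
  obtain ⟨hu, hv, hper, hz, hJ⟩ := hs
  have hud : Differentiable ℝ u := hu.1.differentiable (by norm_num)
  have hvd : Differentiable ℝ v := hv.1.differentiable (by norm_num)
  refine ⟨fun t => x t + u (x t, s t), fun t => s t + v (x t, s t),
    fun t => (s t + v (x t, s t)) * (u (x t, s t)) - l.G (x t) (s t + v (x t, s t)),
    fun t => x₁ t + fderiv ℝ u (x t, s t) (x₁ t, s₁ t),
    fun t => s₁ t + fderiv ℝ v (x t, s t) (x₁ t, s₁ t), fun t ht => ?_⟩
  obtain ⟨hx, hs, hs0, hD⟩ := hxs t ht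
  have hsρ : s t < ρ := by
    have h3 : ar (E (x t) (s t)) < ρ := hD
    rwa [ar_E _ _ hs0.le] at h3
  have hU : HasDerivAt (fun t => u (x t, s t)) (fderiv ℝ u (x t, s t) (x₁ t, s₁ t)) t :=
    (hud (x t, s t)).hasFDerivAt.comp_hasDerivAt t (hx.prodMk hs)
  have hV : HasDerivAt (fun t => v (x t, s t)) (fderiv ℝ v (x t, s t) (x₁ t, s₁ t)) t :=
    (hvd (x t, s t)).hasFDerivAt.comp_hasDerivAt t (hx.prodMk hs)
  obtain ⟨hS0, hE⟩ := huv (x t) (s t) hs0 (by linarith)
  obtain ⟨hg1, hg2⟩ := hlr (x t) (s t) hsρ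
  have hS := hs.add hV
  have hG := G_deriv hl x (fun t => s t + v (x t, s t)) t _ _ hx hS
  refine ⟨hx.add hU, hS, hS0, ?_, ?_, hE, ?_⟩
  · refine ((hS.mul hU).sub hG).congr_deriv ?_
    set X₁ := fderiv ℝ u (x t, s t) (x₁ t, s₁ t)
    set S₁ := fderiv ℝ v (x t, s t) (x₁ t, s₁ t)
    simp only [Pi.add_apply]
    rw [← hg2]
    have h3 : l.gx (x t) (s t + v (x t, s t)) = - v (x t, s t) := by linarith
    rw [h3]
    ring
  · refine ⟨x t + u (x t, s t), s t + v (x t, s t), by linarith, by rw [← hg2], rfl, rfl, ?_⟩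
    ring
  · intro hse
    have h3 : s t ≤ Real.pi * r0 ^ 2 / 2 := by
      have : 0 < Real.pi * r0 ^ 2 := by positivity
      linarith
    obtain ⟨hu0, hv0⟩ := hz (x t) (s t) h3
    have h4 := (hl.zero (x t) (s t) (Or.inl hse.le)).1
    refine ⟨by simp only [hu0, add_zero], by simp only [hv0, add_zero], ?_⟩
    simp only [hu0, hv0, add_zero, h4]
    ring

end Pool.Agent.W539.DP
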